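import Mathlib

/-!
Module 6 (algebra) for the order-independence barrier (MP_e6fa8b_nt), statements by helper8.
-/

namespace Pool.Agent.Helper79.Order

open Polynomial Finset

/-- `(X-1)^k` is coprime to `X`. -/
lemma isCoprime_X (k : ℕ) : IsCoprime ((X - 1 : ℤ[X]) ^ k) X := by
  apply IsCoprime.pow_left
  exact ⟨-1, 1, by ring⟩

/-- (6a) a polynomial with at most `k` terms is not divisible by `(X-1)^k`. -/
lemma not_dvd_of_card (k : ℕ) (p : ℤ[X]) (hp : p ≠ 0) (hk : p.support.card ≤ k) :
    ¬ ((X - 1) ^ k ∣ p) := by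
  induction k generalizing p with
  | zero =>
    exfalso
    have h0 : p.support = ∅ := by
      rw [← Finset.card_eq_zero]; omega
    exact hp (Polynomial.support_eq_empty.mp h0)
  | succ k ih =>
    -- strong induction on the degree
    induction hn : p.natDegree using Nat.strong_induction_on generalizing p with
    | _ n ihn =>
      intro hdvd
      by_cases hc : p.coeff 0 = 0
      · have hpx : X * divX p = p := by
          have := X_mul_divX_add p
          rw [hc, C_0, add_zero] at this
          exact this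
        have hq0 : divX p ≠ 0 := by
          intro h; rw [h, mul_zero] at hpx; exact hp hpx.symm
        have hcard : (divX p).support.card ≤ k + 1 := by
          refine le_trans ?_ hk
          refine Finset.card_le_card_of_injOn (fun n => n + 1) ?_ ?_
          · intro a ha
            simp only [Finset.mem_coe, mem_support_iff, coeff_divX] at ha ⊢
            exact ha
          · intro a _ b _ hab
            simpa using hab
        have hdeg : (divX p).natDegree < n := by
          rw [← hn]
          conv_rhs => rw [← hpx]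
          rw [natDegree_X_mul hq0]
          omega
        refine ihn _ hdeg (divX p) hq0 hcard rfl ?_
        rw [← hpx] at hdvd
        exact (isCoprime_X (k + 1)).dvd_of_dvd_mul_left hdvd
      · -- the constant coefficient is nonzero: differentiate
        have hder : (X - 1 : ℤ[X]) ^ k ∣ derivative p := by
          have := pow_sub_one_dvd_derivative_of_pow_dvd hdvd
          simpa using this
        by_cases hd : derivative p = 0
        · have hpc : p = C (p.coeff 0) := by
            exact eq_C_of_natDegree_eq_zero (Polynomial.derivative_eq_zero.mp hd)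
          have h1 : (X - 1 : ℤ[X]) ∣ p := dvd_trans (dvd_pow_self _ (by omega)) hdvd
          have h2 : p.eval 1 = 0 := by
            obtain ⟨q, hq⟩ := h1
            rw [hq]; simp
          rw [hpc, eval_C] at h2
          exact hc h2
        · have hcard : (derivative p).support.card ≤ k := by
            have h1 : (derivative p).support.card ≤ (p.support.erase 0).card := by
              refine Finset.card_le_card_of_injOn (fun n => n + 1) ?_ ?_
              · intro a ha
                simp only [Finset.mem_coe, mem_support_iff, coeff_derivative, Finset.mem_erase] at ha ⊢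
                refine ⟨by omega, fun h => ha ?_⟩
                rw [h, zero_mul]
              · intro a _ b _ hab
                simpa using hab
            have h2 : 0 ∈ p.support := by
              rw [mem_support_iff]; exact hc
            rw [Finset.card_erase_of_mem h2] at h1
            omega
          exact ih (derivative p) hd hcard hder

/-- divisibility by `(X-1)^n` from vanishing of the first Taylor coefficients at `1` -/
lemma dvd_of_hasse (n : ℕ) (p : ℤ[X]) (h : ∀ i < n, (hasseDeriv i p).eval 1 = 0) :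
    (X - 1) ^ n ∣ p := by
  have h1 : X ^ n ∣ taylor 1 p := by
    rw [X_pow_dvd_iff]
    intro d hd
    rw [taylor_coeff]
    exact h d hd
  obtain ⟨q, hq⟩ := h1
  refine ⟨taylor (-1) q, ?_⟩
  have h2 : taylor (-1) (taylor 1 p) = p := by
    rw [taylor_taylor]; simp
  rw [← h2, hq, taylor_mul, taylor_pow, taylor_X]
  simp [sub_eq_add_neg]

/-- The binomial coefficient as a rational polynomial. -/
lemma choose_poly (i : ℕ) : ∃ P : ℚ[X], P.degree < (i + 1 : ℕ) ∧
    ∀ n : ℕ, P.eval (n : ℚ) = (n.choose i : ℚ) := by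
  refine ⟨C ((i.factorial : ℚ)⁻¹) * descPochhammer ℚ i, ?_, ?_⟩
  · refine lt_of_le_of_lt (degree_le_natDegree) ?_
    have h1 : (C ((i.factorial : ℚ)⁻¹) * descPochhammer ℚ i).natDegree ≤ i := by
      refine le_trans (natDegree_C_mul_le _ _) ?_
      rw [descPochhammer_natDegree]
    exact_mod_cast Nat.lt_succ_of_le h1
  · intro n
    rw [eval_mul, eval_C, descPochhammer_eval_eq_descFactorial, Nat.descFactorial_eq_factorial_mul_choose]
    push_cast
    rw [← mul_assoc, inv_mul_cancel₀, one_mul]
    exact_mod_cast (Nat.factorial_pos i).ne'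

/-- the Lagrange relation, cleared of denominators. -/
lemma exists_relation (s : Finset ℕ) (v : ℕ)
    (hv : ∀ x ∈ s, ∃ e : ℤ, Odd e ∧ ∏ y ∈ s.erase x, ((x : ℤ) - y) = 2 ^ v * e) :
    ∃ c : ℕ → ℤ, (∀ x ∈ s, Odd (c x)) ∧
      (X - 1) ^ (s.card - 1) ∣ ∑ x ∈ s, C (c x) * X ^ x := by
  classical
  choose! e he1 he2 using hv
  refine ⟨fun x => ∏ y ∈ s.erase x, e y, ?_, ?_⟩
  · intro x _
    refine Finset.prod_induction _ Odd (fun a b ha hb => ha.mul hb) odd_one ?_
    intro y hy
    exact he1 y (Finset.mem_of_mem_erase hy)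
  · apply dvd_of_hasse
    intro i hi
    obtain ⟨P, hPd, hPe⟩ := choose_poly i
    have hinj : Set.InjOn (fun n : ℕ => (n : ℚ)) s := fun a _ b _ hab => Nat.cast_injective hab
    have hP' : P.degree < s.card := lt_of_lt_of_le hPd (by exact_mod_cast (by omega : i + 1 ≤ s.card))
    have h1 := Lagrange.coeff_eq_sum hinj hP'
    have h2 : P.coeff (s.card - 1) = 0 := by
      apply coeff_eq_zero_of_degree_lt
      refine lt_of_lt_of_le hPd ?_
      exact_mod_cast (by omega : i + 1 ≤ s.card - 1)
    rw [h2] at h1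
    -- the value
    have h3 : (hasseDeriv i (∑ x ∈ s, C (∏ y ∈ s.erase x, e y) * X ^ x : ℤ[X])).eval 1 =
        ∑ x ∈ s, (∏ y ∈ s.erase x, e y) * (x.choose i : ℤ) := by
      rw [map_sum, eval_finsetSum]
      refine Finset.sum_congr rfl fun x _ => ?_
      rw [C_mul_X_pow_eq_monomial, hasseDeriv_monomial, eval_monomial]
      simp [mul_comm]
    rw [h3]
    have he0 : ∀ x ∈ s, (e x : ℚ) ≠ 0 := by
      intro x hx h
      have : e x = 0 := by exact_mod_cast h
      have h5 := he1 x hx
      rw [this] at h5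
      exact absurd h5 (by decide)
    have h4 : ((∑ x ∈ s, (∏ y ∈ s.erase x, e y) * (x.choose i : ℤ) : ℤ) : ℚ) = 0 := by
      push_cast
      have h6 : ∀ x ∈ s, (∏ y ∈ s.erase x, (e y : ℚ)) * (x.choose i : ℚ) =
          ((∏ y ∈ s, (e y : ℚ)) * 2 ^ v) *
            (P.eval ((fun n : ℕ => (n : ℚ)) x) / ∏ j ∈ s.erase x, ((x : ℚ) - (j : ℚ))) := by
        intro x hx
        have h7 : ∏ j ∈ s.erase x, ((x : ℚ) - (j : ℚ)) = 2 ^ v * e x := by
          have := he2 x hx
          exact_mod_cast this
        rw [h7]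
        simp only [hPe]
        rw [← Finset.mul_prod_erase s (fun y => (e y : ℚ)) hx]
        have := he0 x hx
        field_simp
      rw [Finset.sum_congr rfl h6, ← Finset.mul_sum, ← h1, mul_zero]
    exact_mod_cast h4

/-- the shift sets -/
def S : ℕ → Finset ℕ
  | 0 => {0, 1}
  | (k + 1) => insert 0 (insert (2 ^ ((k + 1) ^ 2)) ((S k).image fun x => 2 * x + 1))

lemma S_succ (k : ℕ) : S (k + 1) =
    insert 0 (insert (2 ^ ((k + 1) ^ 2)) ((S k).image fun x => 2 * x + 1)) := rfl

lemma even_pow_sq (k : ℕ) : Even (2 ^ ((k + 1) ^ 2)) := by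
  apply Even.pow_of_ne_zero even_two
  positivity

lemma inj_two (s : Set ℕ) : Set.InjOn (fun x : ℕ => 2 * x + 1) s := by
  intro a _ b _ hab
  simp only at hab
  omega

lemma notMem1 (k : ℕ) : (2 ^ ((k + 1) ^ 2)) ∉ ((S k).image fun x => 2 * x + 1) := by
  intro h
  rw [Finset.mem_image] at h
  obtain ⟨a, _, ha⟩ := h
  have h1 := even_pow_sq k
  rw [← ha] at h1
  rw [Nat.even_iff] at h1
  omega

lemma notMem0 (k : ℕ) : 0 ∉ (insert (2 ^ ((k + 1) ^ 2)) ((S k).image fun x => 2 * x + 1)) := by
  intro h
  rw [Finset.mem_insert, Finset.mem_image] at h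
  rcases h with h | ⟨a, _, ha⟩
  · exact absurd h.symm (by positivity)
  · omega

lemma S_card (k : ℕ) : (S k).card = 2 * (k + 1) := by
  induction k with
  | zero => rfl
  | succ k ih =>
    rw [S_succ, Finset.card_insert_of_notMem (notMem0 k), Finset.card_insert_of_notMem (notMem1 k),
      Finset.card_image_of_injOn (inj_two _), ih]
    ring

lemma odd_image_prod (t : Finset ℕ) (a : ℤ) (ha : Even a) :
    Odd (∏ y ∈ t.image (fun x => 2 * x + 1), (a - ((y : ℕ) : ℤ))) := by
  refine Finset.prod_induction _ Odd (fun a b ha hb => ha.mul hb) odd_one ?_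
  intro y hy
  rw [Finset.mem_image] at hy
  obtain ⟨x, _, rfl⟩ := hy
  obtain ⟨b, rfl⟩ := ha
  refine ⟨b - x - 1, ?_⟩
  push_cast
  ring

lemma S_val (k : ℕ) : ∀ x ∈ S k, ∃ e : ℤ, Odd e ∧
    ∏ y ∈ (S k).erase x, ((x : ℤ) - y) = 2 ^ (k ^ 2) * e := by
  induction k with
  | zero =>
    intro x hx
    simp only [S, Finset.mem_insert, Finset.mem_singleton] at hx
    rcases hx with rfl | rfl
    · refine ⟨-1, by decide, by decide⟩
    · refine ⟨1, by decide, by decide⟩
  | succ k ih =>
    intro x hx
    have hN : Even ((2 : ℤ) ^ ((k + 1) ^ 2)) := by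
      have := even_pow_sq k
      exact_mod_cast (Int.even_coe_nat _).mpr this
    rw [S_succ, Finset.mem_insert, Finset.mem_insert] at hx
    rcases hx with rfl | rfl | hx
    · rw [S_succ, Finset.erase_insert (notMem0 k), Finset.prod_insert (notMem1 k)]
      refine ⟨-∏ y ∈ (S k).image (fun x => 2 * x + 1), (((0 : ℕ) : ℤ) - ((y : ℕ) : ℤ)), ?_, ?_⟩
      · exact (odd_image_prod (S k) _ (by simp)).neg
      · push_cast
        ring
    · have hne : (0 : ℕ) ≠ 2 ^ ((k + 1) ^ 2) := by positivity
      rw [S_succ, Finset.erase_insert_of_ne hne, Finset.erase_insert (notMem1 k)]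
      rw [Finset.prod_insert (fun h => notMem0 k (Finset.mem_insert_of_mem h))]
      refine ⟨∏ y ∈ (S k).image (fun x => 2 * x + 1),
        (((2 ^ ((k + 1) ^ 2) : ℕ) : ℤ) - ((y : ℕ) : ℤ)), ?_, ?_⟩
      · exact odd_image_prod (S k) _ (by push_cast; exact hN)
      · push_cast
        ring
    · rw [Finset.mem_image] at hx
      obtain ⟨a, ha, rfl⟩ := hx
      obtain ⟨e, he, hprod⟩ := ih a ha
      have hne0 : (0 : ℕ) ≠ 2 * a + 1 := by omega
      have hne1 : (2 ^ ((k + 1) ^ 2)) ≠ 2 * a + 1 := by
        intro h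
        exact notMem1 k (by rw [h]; exact Finset.mem_image_of_mem _ ha)
      rw [S_succ, Finset.erase_insert_of_ne hne0, Finset.erase_insert_of_ne hne1]
      have hsub : ((S k).image (fun x => 2 * x + 1)).erase (2 * a + 1) =
          ((S k).erase a).image (fun x => 2 * x + 1) := by
        rw [Finset.image_erase (fun x y h => by simpa using h)]
      rw [hsub]
      rw [Finset.prod_insert, Finset.prod_insert]
      · rw [Finset.prod_image (fun x _ y _ h => by simpa using h)]
        have h2 : ∏ x ∈ (S k).erase a, (((2 * a + 1 : ℕ) : ℤ) - ((2 * x + 1 : ℕ) : ℤ)) =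
            2 ^ (2 * k + 1) * ∏ x ∈ (S k).erase a, ((a : ℤ) - x) := by
          have h3 : ∀ x ∈ (S k).erase a, (((2 * a + 1 : ℕ) : ℤ) - ((2 * x + 1 : ℕ) : ℤ)) =
              2 * ((a : ℤ) - x) := by
            intro x _
            push_cast
            ring
          rw [Finset.prod_congr rfl h3, Finset.prod_mul_distrib, Finset.prod_const,
            Finset.card_erase_of_mem ha, S_card]
          congr 2
        rw [h2, hprod]
        refine ⟨(((2 * a + 1 : ℕ) : ℤ) - ((0 : ℕ) : ℤ)) *
          ((((2 * a + 1 : ℕ) : ℤ) - ((2 ^ ((k + 1) ^ 2) : ℕ) : ℤ)) * e), ?_, ?_⟩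
        · refine Odd.mul ?_ (Odd.mul ?_ he)
          · push_cast
            exact ⟨a, by ring⟩
          · obtain ⟨b, hb⟩ := hN
            push_cast
            rw [hb]
            exact ⟨a - b, by ring⟩
        · ring
      · intro h
        refine notMem1 k ?_
        exact Finset.image_subset_image (Finset.erase_subset _ _) h
      · intro h
        refine notMem0 k ?_
        rw [Finset.mem_insert] at h ⊢
        rcases h with h | h
        · exact Or.inl h
        · exact Or.inr (Finset.image_subset_image (Finset.erase_subset _ _) h)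

/-- (6b) -/
lemma exists_odd_relation (m : ℕ) (hm : 1 ≤ m) :
    ∃ h : Fin (2 * m) → ℕ, Function.Injective h ∧ ∃ c : Fin (2 * m) → ℤ, (∀ j, Odd (c j)) ∧
      (X - 1) ^ (2 * m - 1) ∣ ∑ j, C (c j) * X ^ (h j) := by
  obtain ⟨k, rfl⟩ : ∃ k, m = k + 1 := ⟨m - 1, by omega⟩
  obtain ⟨c, hc1, hc2⟩ := exists_relation (S k) (k ^ 2) (S_val k)
  have hcard := S_card k
  let e : Fin (2 * (k + 1)) ≃ (S k) := ((S k).equivFinOfCardEq hcard).symm
  refine ⟨fun j => (e j : ℕ), ?_, fun j => c (e j), ?_, ?_⟩
  · intro i j hij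
    exact e.injective (Subtype.ext hij)
  · intro j
    exact hc1 _ (e j).2
  · rw [hcard] at hc2
    have h1 : ∑ j : Fin (2 * (k + 1)), C (c (e j)) * X ^ ((e j : ℕ)) =
        ∑ x ∈ S k, C (c x) * (X : ℤ[X]) ^ x := by
      rw [← Finset.sum_coe_sort (S k) (fun x => C (c x) * (X : ℤ[X]) ^ x)]
      exact Equiv.sum_comp e (fun x : (S k) => C (c x) * (X : ℤ[X]) ^ (x : ℕ))
    rw [h1]
    exact hc2

/-- (6c) -/
lemma sign_const (ℓ : ℕ) (hℓ : Even ℓ) (h2 : 2 ≤ ℓ) (h : Fin ℓ → ℕ) (hinj : Function.Injective h)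
    (c c' : Fin ℓ → ℤ) (hc : ∀ j, Odd (c j)) (hc' : ∀ j, Odd (c' j))
    (hd : (X - 1) ^ (ℓ - 1) ∣ ∑ j, C (c j) * X ^ (h j))
    (hd' : (X - 1) ^ (ℓ - 1) ∣ ∑ j, C (c' j) * X ^ (h j)) :
    ∏ j, (c j).sign = ∏ j, (c' j).sign := by
  classical
  have hl0 : 0 < ℓ := by omega
  let j0 : Fin ℓ := ⟨0, hl0⟩
  -- coefficients
  have hcoeff : ∀ (d : Fin ℓ → ℤ) (j : Fin ℓ), (∑ i, C (d i) * X ^ (h i) : ℤ[X]).coeff (h j) = d j := by
    intro d j
    rw [finsetSum_coeff]
    rw [Finset.sum_eq_single j]
    · simp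
    · intro b _ hb
      rw [coeff_C_mul, coeff_X_pow, if_neg (fun h' => hb (hinj h'.symm)), mul_zero]
    · intro hj
      exact absurd (Finset.mem_univ j) hj
  set d : Fin ℓ → ℤ := fun j => c' j0 * c j - c j0 * c' j with hdef
  have hdvd : (X - 1) ^ (ℓ - 1) ∣ ∑ j, C (d j) * X ^ (h j) := by
    have h1 : ∑ j, C (d j) * X ^ (h j) = C (c' j0) * ∑ j, C (c j) * X ^ (h j) -
        C (c j0) * ∑ j, C (c' j) * X ^ (h j) := by
      rw [Finset.mul_sum, Finset.mul_sum, ← Finset.sum_sub_distrib]
      refine Finset.sum_congr rfl fun j _ => ?_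
      simp only [hdef, C_sub, C_mul]
      ring
    rw [h1]
    exact dvd_sub (Dvd.dvd.mul_left hd _) (Dvd.dvd.mul_left hd' _)
  have hd0 : d j0 = 0 := by simp only [hdef]; ring
  have hsupp : (∑ j, C (d j) * X ^ (h j) : ℤ[X]).support ⊆ (Finset.univ.erase j0).image h := by
    intro n hn
    rw [mem_support_iff, finsetSum_coeff] at hn
    obtain ⟨j, _, hj⟩ := Finset.exists_ne_zero_of_sum_ne_zero hn
    rw [Finset.mem_image]
    refine ⟨j, ?_, ?_⟩
    · rw [Finset.mem_erase]
      refine ⟨?_, Finset.mem_univ _⟩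
      intro hj0
      rw [hj0, hd0] at hj
      simp at hj
    · by_contra hne
      rw [coeff_C_mul, coeff_X_pow, if_neg (fun h' => hne h'.symm), mul_zero] at hj
      exact hj rfl
  have hcard : (∑ j, C (d j) * X ^ (h j) : ℤ[X]).support.card ≤ ℓ - 1 := by
    refine le_trans (Finset.card_le_card hsupp) ?_
    refine le_trans Finset.card_image_le ?_
    rw [Finset.card_erase_of_mem (Finset.mem_univ _)]
    simp
  have hzero : (∑ j, C (d j) * X ^ (h j) : ℤ[X]) = 0 := by
    by_contra hne
    exact not_dvd_of_card (ℓ - 1) _ hne hcard hdvd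
  have hdj : ∀ j, c' j0 * c j = c j0 * c' j := by
    intro j
    have h1 := hcoeff d j
    rw [hzero, coeff_zero] at h1
    simp only [hdef] at h1
    linarith
  have hne : ∀ z : ℤ, Odd z → z.sign ^ ℓ = 1 := by
    intro z hz
    have hz0 : z ≠ 0 := by
      rintro rfl
      exact absurd hz (by decide)
    obtain ⟨r, hr⟩ := hℓ
    rw [hr, ← mul_two, pow_mul']
    have : z.sign ^ 2 = 1 := by
      rcases lt_or_gt_of_ne hz0 with h' | h'
      · rw [Int.sign_eq_neg_one_of_neg h']; norm_num
      · rw [Int.sign_eq_one_of_pos h']; norm_num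
    rw [this, one_pow]
  have hprod : ∏ j, ((c' j0).sign * (c j).sign) = ∏ j, ((c j0).sign * (c' j).sign) := by
    refine Finset.prod_congr rfl fun j _ => ?_
    rw [← Int.sign_mul, ← Int.sign_mul, hdj j]
  rw [Finset.prod_mul_distrib, Finset.prod_mul_distrib, Finset.prod_const, Finset.prod_const,
    Finset.card_univ, Fintype.card_fin, hne _ (hc' j0), hne _ (hc j0), one_mul, one_mul] at hprod
  exact hprod

end Pool.Agent.Helper79.Order
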